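import Pool.Agent.H38.AG.Targets

/-!
# SLB: every reduced triple of large height is in one of the classes
-/

set_option autoImplicit false

open Pool.Agent.H38.RB Pool.Agent.H38.PS Pool.Agent.H82.RD Pool.Agent.H38.AB Pool.Agent.H38.AG

namespace Pool.Agent.H74.AG

/-- primes of an entry -/
abbrev Pf (x : Fin 3 → ℤ) (i : Fin 3) : Finset ℕ := (x i).natAbs.primeFactors

/-- mass of a set of primes in an entry -/
noncomputable def ms (x : Fin 3 → ℤ) (i : Fin 3) (S : Finset ℕ) : ℝ :=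
  ∑ p ∈ S, ((x i).natAbs.factorization p : ℝ) * Real.log p

/-- weight of a set of primes -/
noncomputable def wt (S : Finset ℕ) : ℝ := ∑ p ∈ S, Real.log p

theorem sum3 (f : Fin 3 → ℝ) (l : Fin 3) : ∑ i, f i = f l + f (l + 1) + f (l + 2) := by
  rw [Fin.sum_univ_three]
  fin_cases l
  · rfl
  · show f 0 + f 1 + f 2 = f 1 + f 2 + f 0
    ring
  · show f 0 + f 1 + f 2 = f 2 + f 0 + f 1
    ring

theorem ne01 (l : Fin 3) : l ≠ l + 1 := by fin_cases l <;> decide
theorem ne02 (l : Fin 3) : l ≠ l + 2 := by fin_cases l <;> decide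
theorem ne12 (l : Fin 3) : l + 1 ≠ l + 2 := by fin_cases l <;> decide

theorem log_pd {S : Finset ℕ} (hS : ∀ p ∈ S, 1 ≤ p) : Real.log (pd S : ℝ) = wt S := by
  unfold pd wt
  rw [Nat.cast_prod, Real.log_prod]
  intro p hp
  have := hS p hp
  positivity

theorem pf_one {x : Fin 3 → ℤ} {i : Fin 3} {p : ℕ} (hp : p ∈ Pf x i) : 1 ≤ p :=
  (Nat.prime_of_mem_primeFactors hp).pos

theorem log_nn {p : ℕ} (hp : 1 ≤ p) : 0 ≤ Real.log (p : ℝ) :=
  Real.log_nonneg (by exact_mod_cast hp)

theorem log_nn' (p : ℕ) : 0 ≤ Real.log (p : ℝ) := Real.log_natCast_nonneg p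

theorem wt_nn (S : Finset ℕ) : 0 ≤ wt S := Finset.sum_nonneg fun p _ => log_nn' p

theorem ms_nn (x : Fin 3 → ℤ) (i : Fin 3) (S : Finset ℕ) : 0 ≤ ms x i S :=
  Finset.sum_nonneg fun p _ => mul_nonneg (Nat.cast_nonneg _) (log_nn' p)

theorem log_abs {x : Fin 3 → ℤ} (hA : Adm x) (i : Fin 3) :
    ms x i (Pf x i) = Real.log ((x i).natAbs : ℝ) := by
  have h0 : (x i).natAbs ≠ 0 := Int.natAbs_ne_zero.2 (hA.1 i)
  have h1 : (x i).natAbs = ∏ p ∈ (x i).natAbs.primeFactors, p ^ (x i).natAbs.factorization p := by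
    conv_lhs => rw [← Nat.prod_factorization_pow_eq_self h0]
    rfl
  conv_rhs => rw [h1]
  unfold ms
  rw [Nat.cast_prod, Real.log_prod]
  · refine Finset.sum_congr rfl fun p _ => ?_
    rw [Nat.cast_pow, Real.log_pow]
  · intro p hp
    have := pf_one hp
    positivity

theorem disj {x : Fin 3 → ℤ} (hA : Adm x) {i j : Fin 3} (h : i ≠ j) :
    Disjoint (Pf x i) (Pf x j) :=
  Nat.Coprime.disjoint_primeFactors (Int.isCoprime_iff_gcd_eq_one.1 (hA.2.1 i j h))

theorem pr_mul (x : Fin 3 → ℤ) : pr x = (x 0).natAbs * (x 1).natAbs * (x 2).natAbs := by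
  unfold pr
  rw [Int.natAbs_mul, Int.natAbs_mul]

theorem pr_ne {x : Fin 3 → ℤ} (hA : Adm x) : pr x ≠ 0 := by
  unfold pr
  exact Int.natAbs_ne_zero.2 (mul_ne_zero (mul_ne_zero (hA.1 0) (hA.1 1)) (hA.1 2))

theorem pr_pf {x : Fin 3 → ℤ} (hA : Adm x) : (pr x).primeFactors = Finset.univ.biUnion (Pf x) := by
  have h0 : ∀ i, (x i).natAbs ≠ 0 := fun i => Int.natAbs_ne_zero.2 (hA.1 i)
  rw [pr_mul, Nat.primeFactors_mul (mul_ne_zero (h0 0) (h0 1)) (h0 2),
    Nat.primeFactors_mul (h0 0) (h0 1)]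
  ext p
  rw [Finset.mem_union, Finset.mem_union, Finset.mem_biUnion]
  constructor
  · rintro ((h | h) | h)
    · exact ⟨0, Finset.mem_univ _, h⟩
    · exact ⟨1, Finset.mem_univ _, h⟩
    · exact ⟨2, Finset.mem_univ _, h⟩
  · rintro ⟨i, -, h⟩
    fin_cases i
    · exact Or.inl (Or.inl h)
    · exact Or.inl (Or.inr h)
    · exact Or.inr h

theorem fac {x : Fin 3 → ℤ} (hA : Adm x) {i : Fin 3} {p : ℕ} (hp : p ∈ Pf x i) :
    (pr x).factorization p = (x i).natAbs.factorization p := by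
  have h0 : ∀ i, (x i).natAbs ≠ 0 := fun i => Int.natAbs_ne_zero.2 (hA.1 i)
  have hz : ∀ j, i ≠ j → (x j).natAbs.factorization p = 0 := by
    intro j hj
    have h1 := Finset.disjoint_left.1 (disj hA hj) hp
    rw [← Finsupp.notMem_support_iff]
    exact h1
  rw [pr_mul, Nat.factorization_mul (mul_ne_zero (h0 0) (h0 1)) (h0 2),
    Nat.factorization_mul (h0 0) (h0 1), Finsupp.add_apply, Finsupp.add_apply]
  fin_cases i
  · have h1 := hz 1 (by decide)
    have h2 := hz 2 (by decide)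
    simp only [Fin.zero_eta] at *
    omega
  · have h1 := hz 0 (by decide)
    have h2 := hz 2 (by decide)
    simp only [Fin.mk_one] at *
    omega
  · have h1 := hz 0 (by decide)
    have h2 := hz 1 (by decide)
    simp only [Fin.reduceFinMk] at *
    omega

/-- membership in `Sol` -/
theorem sol_of {x : Fin 3 → ℤ} (hA : Adm x) {κ : ℝ} (T : Finset ℕ)
    (h : ∑ i, ms x i (Pf x i \ T) ≤ κ * Real.log (ht x)) : x ∈ Sol κ T := by
  classical
  refine ⟨hA, ?_⟩
  have hht : (0 : ℝ) < (ht x : ℝ) := by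
    have h1 : 1 ≤ (x 0).natAbs := Int.natAbs_pos.2 (hA.1 0)
    have h2 : 1 ≤ ht x := h1.trans (le_max_left _ _)
    exact_mod_cast h2
  have h1 : ((pr x : ℕ) : ℝ) = (∏ p ∈ (pr x).primeFactors \ T, (p : ℝ) ^ (pr x).factorization p) *
      ∏ p ∈ (pr x).primeFactors ∩ T, (p : ℝ) ^ (pr x).factorization p := by
    have h2 : pr x = ∏ p ∈ (pr x).primeFactors, p ^ (pr x).factorization p := by
      conv_lhs => rw [← Nat.prod_factorization_pow_eq_self (pr_ne hA)]
      rfl
    conv_lhs => rw [h2]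
    rw [Nat.cast_prod]
    simp only [Nat.cast_pow]
    rw [mul_comm, Finset.inter_comm, Finset.inter_comm, Finset.prod_inter_mul_prod_sdiff]
  rw [h1]
  refine mul_le_mul ?_ ?_ (Finset.prod_nonneg fun p _ => by positivity)
    (Real.rpow_nonneg hht.le _)
  · rw [Real.rpow_def_of_pos hht]
    have h3 : 0 < ∏ p ∈ (pr x).primeFactors \ T, (p : ℝ) ^ (pr x).factorization p := by
      refine Finset.prod_pos fun p hp => ?_
      have := (Nat.prime_of_mem_primeFactors (Finset.mem_sdiff.1 hp).1).pos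
      positivity
    rw [← Real.log_le_iff_le_exp h3, Real.log_prod, mul_comm (Real.log _)]
    · refine le_trans (le_of_eq ?_) h
      have h4 : (pr x).primeFactors \ T = Finset.univ.biUnion fun i => Pf x i \ T := by
        rw [pr_pf hA]
        ext p
        simp only [Finset.mem_sdiff, Finset.mem_biUnion, Finset.mem_univ, true_and]
        constructor
        · rintro ⟨⟨i, hi⟩, h⟩
          exact ⟨i, hi, h⟩
        · rintro ⟨i, hi, h⟩
          exact ⟨⟨i, hi⟩, h⟩
      rw [h4, Finset.sum_biUnion]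
      · refine Finset.sum_congr rfl fun i _ => ?_
        unfold ms
        refine Finset.sum_congr rfl fun p hp => ?_
        rw [Real.log_pow, fac hA (Finset.mem_sdiff.1 hp).1]
      · intro i _ j _ hij
        exact (disj hA hij).mono Finset.sdiff_subset Finset.sdiff_subset
    · intro p hp
      have := (Nat.prime_of_mem_primeFactors (Finset.mem_sdiff.1 hp).1).pos
      positivity
  · have h5 : ∏ p ∈ (pr x).primeFactors ∩ T, p ^ (pr x).factorization p ≤ tp T (pr x) := by
      unfold tp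
      refine Finset.prod_le_prod_of_subset_of_one_le' Finset.inter_subset_right ?_
      intro p _ _
      rcases Nat.eq_zero_or_pos p with h | h
      · subst h
        simp
      · exact Nat.one_le_pow _ _ h
    have h6 : ((∏ p ∈ (pr x).primeFactors ∩ T, p ^ (pr x).factorization p : ℕ) : ℝ) ≤
        (tp T (pr x) : ℝ) := by exact_mod_cast h5
    refine le_trans (le_of_eq ?_) h6
    rw [Nat.cast_prod]
    simp only [Nat.cast_pow]

theorem pick (E : Finset ℕ) (f : ℕ → ℝ) (m N : ℝ) (hm : 0 < m) (hN : 0 < N) (hE : (E.card : ℝ) ≤ N)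
    (h : m ≤ ∑ p ∈ E, f p) : ∃ q ∈ E, m / N ≤ f q := by
  by_contra hcon
  push Not at hcon
  have hne : E.Nonempty := by
    rw [Finset.nonempty_iff_ne_empty]
    rintro rfl
    rw [Finset.sum_empty] at h
    linarith
  have h1 : ∑ p ∈ E, f p < ∑ _p ∈ E, m / N := Finset.sum_lt_sum_of_nonempty hne hcon
  rw [Finset.sum_const, nsmul_eq_mul] at h1
  have h2 : (E.card : ℝ) * (m / N) ≤ N * (m / N) :=
    mul_le_mul_of_nonneg_right hE (by positivity)
  rw [mul_div_cancel₀ _ hN.ne'] at h2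
  linarith

/-- the two large entries -/
theorem large {x : Fin 3 → ℤ} (hA : Adm x) {a : Fin 3}
    (ha : ∀ i, (x a).natAbs ≤ (x i).natAbs) {b : Fin 3} (hb : b ≠ a) :
    Real.log (ht x) - Real.log 2 ≤ ms x b (Pf x b) := by
  have h1 : ht x ≤ 2 * (x b).natAbs := by
    have hs := hA.2.2
    have h0 := ha 0
    have h1 := ha 1
    have h2 := ha 2
    unfold ht
    fin_cases a <;> fin_cases b <;> simp at hb h0 h1 h2 ⊢ <;> omega
  have hb0 : 1 ≤ (x b).natAbs := Int.natAbs_pos.2 (hA.1 b)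
  have hht : (0 : ℝ) < (ht x : ℝ) := by
    have h1 : 1 ≤ (x 0).natAbs := Int.natAbs_pos.2 (hA.1 0)
    have h2 : 1 ≤ ht x := h1.trans (le_max_left _ _)
    exact_mod_cast h2
  rw [log_abs hA]
  have h2 : (ht x : ℝ) ≤ 2 * ((x b).natAbs : ℝ) := by exact_mod_cast h1
  have h3 := Real.log_le_log hht h2
  rw [Real.log_mul two_ne_zero (by positivity)] at h3
  linarith

/-- light primes of an entry -/
noncomputable def Lt (Z : ℝ) (x : Fin 3 → ℤ) (i : Fin 3) : Finset ℕ :=
  (Pf x i).filter fun p => (p : ℝ) ≤ Z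

/-- heavy primes of an entry -/
noncomputable def Hv (Z : ℝ) (x : Fin 3 → ℤ) (i : Fin 3) : Finset ℕ :=
  (Pf x i).filter fun p => ¬ (p : ℝ) ≤ Z

theorem split (Z : ℝ) (x : Fin 3 → ℤ) (i : Fin 3) :
    wt (Pf x i) = wt (Lt Z x i) + wt (Hv Z x i) ∧
      ms x i (Pf x i) = ms x i (Lt Z x i) + ms x i (Hv Z x i) := by
  unfold wt ms Lt Hv
  exact ⟨(Finset.sum_filter_add_sum_filter_not _ _ _).symm,
    (Finset.sum_filter_add_sum_filter_not _ _ _).symm⟩

theorem wt_union_le (A B : Finset ℕ) : wt (A ∪ B) ≤ wt A + wt B := by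
  unfold wt
  rw [← Finset.sum_union_inter]
  have : 0 ≤ ∑ p ∈ A ∩ B, Real.log (p : ℝ) := Finset.sum_nonneg fun p _ => log_nn' p
  linarith

theorem wt_mono {A B : Finset ℕ} (h : A ⊆ B) : wt A ≤ wt B :=
  Finset.sum_le_sum_of_subset_of_nonneg h fun p _ _ => log_nn' p

theorem sdiff_Lt (Z : ℝ) (x : Fin 3 → ℤ) (i : Fin 3) : Pf x i \ Lt Z x i = Hv Z x i := by
  unfold Lt Hv
  ext p
  simp only [Finset.mem_sdiff, Finset.mem_filter]
  tauto

theorem wt_pr {x : Fin 3 → ℤ} (hA : Adm x) :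
    Real.log (pd (pr x).primeFactors : ℝ) = ∑ i, wt (Pf x i) := by
  rw [log_pd fun p hp => (Nat.prime_of_mem_primeFactors hp).pos, pr_pf hA]
  unfold wt
  rw [Finset.sum_biUnion]
  intro i _ j _ hij
  exact disj hA hij

theorem pd_pos {S : Finset ℕ} (hS : ∀ p ∈ S, 1 ≤ p) : 0 < (pd S : ℝ) := by
  have h : 0 < pd S := Finset.prod_pos fun p hp => hS p hp
  exact_mod_cast h

/-- from weights to products -/
theorem pd_le {S : Finset ℕ} (hS : ∀ p ∈ S, 1 ≤ p) {X θ : ℝ} (hX : 0 < X)
    (h : wt S ≤ θ * Real.log X) : (pd S : ℝ) ≤ X ^ θ := by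
  rw [Real.rpow_def_of_pos hX, ← Real.log_le_iff_le_exp (pd_pos hS), log_pd hS]
  linarith

theorem q_pd_le {S : Finset ℕ} (hS : ∀ p ∈ S, 1 ≤ p) {q : ℕ} (hq : 1 ≤ q) {X θ : ℝ} (hX : 0 < X)
    (h : Real.log q + wt S ≤ θ * Real.log X) : (q : ℝ) * pd S ≤ X ^ θ := by
  have hq' : (0 : ℝ) < q := by exact_mod_cast hq
  rw [Real.rpow_def_of_pos hX, ← Real.log_le_iff_le_exp (mul_pos hq' (pd_pos hS)),
    Real.log_mul hq'.ne' (pd_pos hS).ne', log_pd hS]
  linarith

/-- removing one prime -/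
theorem ms_erase (x : Fin 3 → ℤ) (i : Fin 3) {q : ℕ} (hq : q ∈ Pf x i) (T : Finset ℕ)
    (hT : q ∈ T) : ms x i (Pf x i \ T) ≤
      ms x i (Pf x i) - ((x i).natAbs.factorization q : ℝ) * Real.log q := by
  have h1 : Pf x i \ T ⊆ (Pf x i).erase q := by
    intro p hp
    rw [Finset.mem_sdiff] at hp
    rw [Finset.mem_erase]
    exact ⟨fun h => hp.2 (by rw [h]; exact hT), hp.1⟩
  have h2 : ms x i (Pf x i \ T) ≤ ms x i ((Pf x i).erase q) :=
    Finset.sum_le_sum_of_subset_of_nonneg h1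
      fun p _ _ => mul_nonneg (Nat.cast_nonneg _) (log_nn' p)
  have h3 : ms x i ((Pf x i).erase q) + ((x i).natAbs.factorization q : ℝ) * Real.log q =
      ms x i (Pf x i) := by
    unfold ms
    exact Finset.sum_erase_add _ _ hq
  linarith

theorem ms_sub (x : Fin 3 → ℤ) (i : Fin 3) {T : Finset ℕ} (hT : Pf x i ⊆ T) :
    ms x i (Pf x i \ T) = 0 := by
  rw [Finset.sdiff_eq_empty_iff_subset.2 hT]
  rfl

section

variable {c₃ K₃ K₄ K₀ ρ X : ℝ} {x : Fin 3 → ℤ}

/-- the key with all light primes of two entries -/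
theorem k3 {h : ℕ} {κ c K : ℝ} (hX : 1 < X) (hA : Adm x) (Z : ℝ)
    (hcard : ∀ i, ((Hv Z x i).card : ℝ) + (Hv Z x (i + 1)).card + (Hv Z x (i + 2)).card ≤ h)
    (i : Fin 3) (q : ℕ) (hq : q ∈ Pf x i)
    (h1 : Real.log q + wt (Lt Z x (i + 1)) + wt (Lt Z x (i + 2)) ≤ (2 / 3 - c) * Real.log X)
    (h2 : Real.log X ^ K ≤ ((x i).natAbs.factorization q : ℝ))
    (h3 : ms x i (Pf x i) - ((x i).natAbs.factorization q : ℝ) * Real.log q ≤
      κ * Real.log (ht x)) : K3 X h κ c K x := by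
  refine ⟨i, i + 1, i + 2, q, Lt Z x (i + 1) ∪ Lt Z x (i + 2), ne01 i, ne02 i, ne12 i, hq,
    Finset.union_subset_union (Finset.filter_subset _ _) (Finset.filter_subset _ _), ?_, ?_, h2,
    ?_⟩
  · have h4 : ((x (i + 1)).natAbs.primeFactors ∪ (x (i + 2)).natAbs.primeFactors) \
        (Lt Z x (i + 1) ∪ Lt Z x (i + 2)) ⊆ Hv Z x (i + 1) ∪ Hv Z x (i + 2) := by
      intro p hp
      rw [Finset.mem_sdiff, Finset.mem_union, Finset.mem_union] at hp
      rw [Finset.mem_union, ← sdiff_Lt, ← sdiff_Lt, Finset.mem_sdiff, Finset.mem_sdiff]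
      obtain ⟨h5, h6⟩ := hp
      push Not at h6
      rcases h5 with h5 | h5
      · exact Or.inl ⟨h5, h6.1⟩
      · exact Or.inr ⟨h5, h6.2⟩
    have h5 := (Finset.card_le_card h4).trans (Finset.card_union_le _ _)
    have h6 := hcard i
    have h7 : (((Hv Z x (i + 1)).card + (Hv Z x (i + 2)).card : ℕ) : ℝ) ≤ (h : ℝ) := by
      push_cast
      have : (0 : ℝ) ≤ ((Hv Z x i).card : ℝ) := Nat.cast_nonneg _
      linarith
    exact h5.trans (by exact_mod_cast h7)
  · refine q_pd_le ?_ (pf_one hq) (by linarith) ?_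
    · intro p hp
      rw [Finset.mem_union] at hp
      rcases hp with hp | hp
      · exact pf_one (Finset.mem_filter.1 hp).1
      · exact pf_one (Finset.mem_filter.1 hp).1
    · have := wt_union_le (Lt Z x (i + 1)) (Lt Z x (i + 2))
      linarith
  · refine sol_of hA _ ?_
    rw [sum3 _ i, ms_sub x (i + 1), ms_sub x (i + 2)]
    · have := ms_erase x i hq (insert q ((x (i + 1)).natAbs.primeFactors ∪
        (x (i + 2)).natAbs.primeFactors)) (Finset.mem_insert_self _ _)
      linarith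
    · exact Finset.subset_union_right.trans (Finset.subset_insert _ _)
    · exact Finset.subset_union_left.trans (Finset.subset_insert _ _)

end

theorem core (c₃ K₃ K₄ K₀ ρ X : ℝ) (x : Fin 3 → ℤ) (hc0 : 0 < c₃) (hc1 : c₃ ≤ 1 / 100)
    (hK3 : 1 ≤ K₃) (hK4 : 1 ≤ K₄) (hK0 : K₃ + K₄ + 2 ≤ K₀) (hρ0 : 0 < ρ) (hρ : ρ ≤ c₃ / 100)
    (hX : 1 < X) (hX1 : 400 / c₃ ^ 2 ≤ Real.log X) (hx : x ∈ Rd X ρ)
    (hH : Real.log X ^ K₀ ≤ Real.log (ht x))
    (hlight : ∀ a : Fin 3,
      Real.log (tp ((x a).natAbs.primeFactors.filter fun p => (p : ℝ) ≤ X ^ (c₃ / 4))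
      (x a).natAbs : ℝ) ≤ 6 * (c₃ ^ 2 / 100) / c₃ * Real.log (ht x)) (h : ℕ)
    (hh : 4 / c₃ ≤ (h : ℝ)) :
    K2 X (c₃ / 100) (1 - c₃ ^ 2 / 100) x ∨ K3 X h (1 - c₃ ^ 2 / 100) (c₃ / 100) K₃ x ∨
      K4 X h (1 - c₃ ^ 2 / 100) (c₃ / 100) (K₃ + 3) K₄ x := by
  classical
  obtain ⟨hA, hrad, hent, -, -⟩ := hx
  have hX0 : 0 < X := by linarith
  have hsq : 0 < c₃ ^ 2 := by positivity
  have hsq1 : c₃ ^ 2 ≤ c₃ / 100 := by nlinarith
  obtain ⟨LX, hLX⟩ : ∃ LX, LX = Real.log X := ⟨_, rfl⟩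
  obtain ⟨L, hL⟩ : ∃ L, L = Real.log (ht x) := ⟨_, rfl⟩
  obtain ⟨Z, hZ⟩ : ∃ Z : ℝ, Z = X ^ (c₃ / 4) := ⟨_, rfl⟩
  have hLXb : 400 ≤ LX * c₃ ^ 2 := by
    rw [hLX]
    rwa [div_le_iff₀ hsq] at hX1
  have hLX1 : 1 ≤ LX := by
    by_contra hcon
    push Not at hcon
    nlinarith
  have hLXL : LX * LX ^ (K₃ + K₄ + 1) ≤ L := by
    rw [hL]
    refine le_trans (le_of_eq ?_) (le_trans (Real.rpow_le_rpow_of_exponent_le
      (by rw [← hLX]; exact hLX1) hK0) hH)
    rw [← hLX, show K₃ + K₄ + 2 = 1 + (K₃ + K₄ + 1) by ring,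
      Real.rpow_add (by linarith) 1 (K₃ + K₄ + 1), Real.rpow_one]
  have hone : 1 ≤ LX ^ (K₃ + K₄ + 1) := Real.one_le_rpow hLX1 (by linarith)
  have hLb : LX ≤ L := by nlinarith
  have hL0 : 0 < L := by linarith
  have hlog2 : Real.log 2 ≤ c₃ ^ 2 / 100 * L := by
    have h1 : Real.log 2 ≤ 1 := by
      have := Real.log_two_lt_d9
      linarith
    nlinarith
  -- weights
  have hW : ∑ i, wt (Pf x i) ≤ LX := by
    rw [← wt_pr hA, hLX]
    exact Real.log_le_log (pd_pos fun p hp => (Nat.prime_of_mem_primeFactors hp).pos) hrad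
  have hWi : ∀ i, (1 / 3 - ρ) * LX ≤ wt (Pf x i) := by
    intro i
    have h1 := Real.log_le_log (Real.rpow_pos_of_pos hX0 _) (hent i)
    rw [Real.log_rpow hX0, log_pd fun p hp => (Nat.prime_of_mem_primeFactors hp).pos] at h1
    rw [hLX]
    exact h1
  have hsplit := split Z x
  have hheavy : ∀ i, ∀ p ∈ Hv Z x i, c₃ / 4 * LX ≤ Real.log p := by
    intro i p hp
    obtain ⟨-, hp2⟩ := Finset.mem_filter.1 hp
    push Not at hp2
    have h1 := Real.log_le_log (by rw [hZ]; exact Real.rpow_pos_of_pos hX0 _) hp2.le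
    rw [hZ, Real.log_rpow hX0] at h1
    rw [hLX]
    exact h1
  have hwtH : ∀ i, ((Hv Z x i).card : ℝ) * (c₃ / 4 * LX) ≤ wt (Hv Z x i) := by
    intro i
    have h1 := Finset.sum_le_sum (hheavy i)
    rw [Finset.sum_const, nsmul_eq_mul] at h1
    exact h1
  have hcard : ∀ i, ((Hv Z x i).card : ℝ) + (Hv Z x (i + 1)).card + (Hv Z x (i + 2)).card ≤
      4 / c₃ := by
    intro i
    have h1 := hwtH i
    have h2 := hwtH (i + 1)
    have h3 := hwtH (i + 2)
    have h4 := hW
    rw [sum3 _ i] at h4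
    have h5 := (hsplit i).1
    have h6 := (hsplit (i + 1)).1
    have h7 := (hsplit (i + 2)).1
    have h8 := wt_nn (Lt Z x i)
    have h9 := wt_nn (Lt Z x (i + 1))
    have h10 := wt_nn (Lt Z x (i + 2))
    have h11 : (((Hv Z x i).card : ℝ) + (Hv Z x (i + 1)).card + (Hv Z x (i + 2)).card) *
        (c₃ / 4 * LX) ≤ LX := by
      rw [add_mul, add_mul]
      linarith
    rw [le_div_iff₀ hc0]
    have h12 : (((Hv Z x i).card : ℝ) + (Hv Z x (i + 1)).card + (Hv Z x (i + 2)).card) *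
        c₃ * LX ≤ 4 * LX := by linarith
    exact le_of_mul_le_mul_right h12 (by linarith)
  have hcard1 : ∀ i, ((Hv Z x i).card : ℝ) ≤ 4 / c₃ := by
    intro i
    have h1 := hcard i
    have h2 : (0 : ℝ) ≤ ((Hv Z x (i + 1)).card : ℝ) := Nat.cast_nonneg _
    have h3 : (0 : ℝ) ≤ ((Hv Z x (i + 2)).card : ℝ) := Nat.cast_nonneg _
    linarith
  have hcardh : ∀ i, ((Hv Z x i).card : ℝ) + (Hv Z x (i + 1)).card + (Hv Z x (i + 2)).card ≤
      h := fun i => (hcard i).trans hh
  -- light masses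
  have hlt : ∀ i, ms x i (Lt Z x i) ≤ 6 / 100 * c₃ * L := by
    intro i
    have h1 := hlight i
    have h2 : Real.log (tp (Lt Z x i) (x i).natAbs : ℝ) = ms x i (Lt Z x i) := by
      unfold tp ms
      rw [Nat.cast_prod, Real.log_prod]
      · refine Finset.sum_congr rfl fun p _ => ?_
        rw [Nat.cast_pow, Real.log_pow]
      · intro p hp
        have := pf_one (Finset.mem_filter.1 hp).1
        positivity
    rw [← h2, hL]
    refine le_trans (le_of_eq ?_) (h1.trans (le_of_eq ?_))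
    · rw [hZ]
      rfl
    · field_simp
  have hvbig : ∀ i, ∀ q ∈ Pf x i, c₃ ^ 2 / 400 * L ≤
      ((x i).natAbs.factorization q : ℝ) * Real.log q →
      LX ^ K₃ ≤ ((x i).natAbs.factorization q : ℝ) ∧
        LX ^ K₄ ≤ ((x i).natAbs.factorization q : ℝ) := by
    intro i q hq h1
    have h2 : Real.log q ≤ LX := by
      have h3 : Real.log q ≤ wt (Pf x i) := by
        have h4 : wt {q} ≤ wt (Pf x i) := wt_mono (Finset.singleton_subset_iff.2 hq)
        unfold wt at h4 ⊢
        rwa [Finset.sum_singleton] at h4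
      have h4 := hW
      rw [sum3 _ i] at h4
      have h5 := wt_nn (Pf x (i + 1))
      have h6 := wt_nn (Pf x (i + 2))
      linarith
    have hv0 : (0 : ℝ) ≤ ((x i).natAbs.factorization q : ℝ) := Nat.cast_nonneg _
    have h3 : ((x i).natAbs.factorization q : ℝ) * Real.log q ≤
        ((x i).natAbs.factorization q : ℝ) * LX := mul_le_mul_of_nonneg_left h2 hv0
    have h4 : LX * LX ^ (K₃ + K₄) ≤ ((x i).natAbs.factorization q : ℝ) * LX := by
      have h5 : LX * LX ^ (K₃ + K₄) ≤ c₃ ^ 2 / 400 * L := by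
        have h6 : LX ^ (K₃ + K₄ + 1) = LX ^ (K₃ + K₄) * LX := by
          rw [Real.rpow_add (by linarith), Real.rpow_one]
        rw [h6] at hLXL
        have h7 : 0 ≤ LX ^ (K₃ + K₄) := Real.rpow_nonneg (by linarith) _
        have h8 : 400 * (LX * LX ^ (K₃ + K₄)) ≤ LX * c₃ ^ 2 * (LX * LX ^ (K₃ + K₄)) :=
          mul_le_mul_of_nonneg_right hLXb (mul_nonneg (by linarith) h7)
        have h9 : c₃ ^ 2 * (LX * (LX ^ (K₃ + K₄) * LX)) ≤ c₃ ^ 2 * L :=
          mul_le_mul_of_nonneg_left hLXL hsq.le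
        nlinarith
      linarith
    have h5 : LX ^ (K₃ + K₄) ≤ ((x i).natAbs.factorization q : ℝ) := by
      rw [mul_comm] at h4
      exact le_of_mul_le_mul_right h4 (by linarith)
    exact ⟨(Real.rpow_le_rpow_of_exponent_le hLX1 (by linarith)).trans h5,
      (Real.rpow_le_rpow_of_exponent_le hLX1 (by linarith)).trans h5⟩
  obtain ⟨a, ha⟩ := Finite.exists_min fun i => (x i).natAbs
  have hYle : ∀ i, ms x i (Pf x i) ≤ L := by
    intro i
    rw [log_abs hA, hL]
    refine Real.log_le_log ?_ ?_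
    · have : 1 ≤ (x i).natAbs := Int.natAbs_pos.2 (hA.1 i)
      exact_mod_cast this
    · have h : (x i).natAbs ≤ ht x := by
        unfold ht
        fin_cases i
        · exact le_max_left _ _
        · exact (le_max_left _ _).trans (le_max_right _ _)
        · exact (le_max_right _ _).trans (le_max_right _ _)
      exact_mod_cast h
  have hmemH : ∀ i, ∀ q ∈ Hv Z x i, q ∈ Pf x i := fun i q hq => (Finset.mem_filter.1 hq).1
  have hwtq : ∀ i, ∀ q ∈ Hv Z x i, Real.log q ≤ wt (Hv Z x i) := by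
    intro i q hq
    have h4 : wt {q} ≤ wt (Hv Z x i) := wt_mono (Finset.singleton_subset_iff.2 hq)
    unfold wt at h4 ⊢
    rwa [Finset.sum_singleton] at h4
  have hheavyb : ∀ b, b ≠ a → ∃ q ∈ Hv Z x b,
      c₃ / 8 * L ≤ ((x b).natAbs.factorization q : ℝ) * Real.log q := by
    intro b hb
    have h1 := large hA ha hb
    rw [← hL] at h1
    have h2 := (hsplit b).2
    have h3 := hlt b
    have h4 : 1 / 2 * L ≤ ms x b (Hv Z x b) := by nlinarith
    obtain ⟨q, hq, h5⟩ := pick (Hv Z x b)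
      (fun p => ((x b).natAbs.factorization p : ℝ) * Real.log p) (1 / 2 * L) (4 / c₃)
      (by linarith) (by positivity) (hcard1 b) h4
    refine ⟨q, hq, le_trans (le_of_eq ?_) h5⟩
    field_simp
    ring
  have hρc : ρ * LX ≤ c₃ / 100 * LX := mul_le_mul_of_nonneg_right hρ (by linarith)
  have hcLX : c₃ * LX ≤ 1 / 100 * LX := mul_le_mul_of_nonneg_right hc1 (by linarith)
  have hcLX0 : 0 < c₃ * LX := mul_pos hc0 (by linarith)
  have hcL : c₃ * L ≤ 1 / 100 * L := mul_le_mul_of_nonneg_right hc1 (by linarith)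
  have hcL0 : 0 < c₃ * L := mul_pos hc0 hL0
  have hc2L : c₃ ^ 2 * L ≤ c₃ / 100 * L := mul_le_mul_of_nonneg_right hsq1 (by linarith)
  have hc2L0 : 0 < c₃ ^ 2 * L := mul_pos hsq hL0
  rcases le_or_gt (7 / 100 * c₃ * L) (ms x a (Pf x a)) with hYa | hYa
  · -- all entries have a heavy prime
    have hall : ∀ i, ∃ q ∈ Hv Z x i,
        c₃ ^ 2 / 400 * L ≤ ((x i).natAbs.factorization q : ℝ) * Real.log q ∧
        (ms x i (Pf x i) ≤ 1 / 2 * L ∨
          c₃ ^ 2 / 100 * L ≤ ((x i).natAbs.factorization q : ℝ) * Real.log q) := by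
      intro i
      rcases ne_or_eq i a with hi | rfl
      · obtain ⟨q, hq, h1⟩ := hheavyb i hi
        exact ⟨q, hq, by linarith, Or.inr (by linarith)⟩
      · have h2 := (hsplit i).2
        have h3 := hlt i
        rcases le_or_gt (ms x i (Pf x i)) (1 / 2 * L) with h4 | h4
        · obtain ⟨q, hq, h5⟩ := pick (Hv Z x i)
            (fun p => ((x i).natAbs.factorization p : ℝ) * Real.log p) (c₃ / 100 * L) (4 / c₃)
            (by positivity) (by positivity) (hcard1 i) (by
              change _ ≤ ms x i (Hv Z x i)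
              linarith)
          refine ⟨q, hq, le_trans (le_of_eq ?_) h5, Or.inl h4⟩
          field_simp
          ring
        · obtain ⟨q, hq, h5⟩ := pick (Hv Z x i)
            (fun p => ((x i).natAbs.factorization p : ℝ) * Real.log p) (1 / 4 * L) (4 / c₃)
            (by positivity) (by positivity) (hcard1 i) (by
              change _ ≤ ms x i (Hv Z x i)
              linarith)
          have h6 : 1 / 4 * L / (4 / c₃) = c₃ / 16 * L := by
            field_simp
            ring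
          rw [h6] at h5
          exact ⟨q, hq, by linarith, Or.inr (by linarith)⟩
    choose q hq using hall
    obtain ⟨i, hi⟩ := Finite.exists_min q
    obtain ⟨hq1, hq2, hq3⟩ := hq i
    refine Or.inr (Or.inl (k3 hX hA Z hcardh i (q i) (hmemH i _ hq1) ?_ ?_ ?_))
    · have h1 := hwtq (i + 1) _ (hq (i + 1)).1
      have h2 := hwtq (i + 2) _ (hq (i + 2)).1
      have h3 := hheavy (i + 2) _ (hq (i + 2)).1
      have h4 : Real.log (q i) ≤ Real.log (q (i + 1)) := by
        refine Real.log_le_log ?_ ?_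
        · have := pf_one (hmemH i _ hq1)
          exact_mod_cast this
        · exact_mod_cast hi (i + 1)
      have h5 := hW
      rw [sum3 _ i] at h5
      have h6 := hWi i
      have h7 := (hsplit (i + 1)).1
      have h8 := (hsplit (i + 2)).1
      rw [← hLX]
      linarith
    · rw [← hLX]
      exact (hvbig i _ (hmemH i _ hq1) hq2).1
    · rw [← hL]
      have := hYle i
      rcases hq3 with h | h
      · have h1 : 0 ≤ ((x i).natAbs.factorization (q i) : ℝ) * Real.log (q i) :=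
          mul_nonneg (Nat.cast_nonneg _) (log_nn' _)
        linarith
      · linarith
  · have hd1 : a + 1 ≠ a := (ne01 a).symm
    have hd2 : a + 2 ≠ a := (ne02 a).symm
    have hW3 := hW
    rw [sum3 _ a] at hW3
    have hs1 := hsplit (a + 1)
    have hs2 := hsplit (a + 2)
    have hl1 := hlt (a + 1)
    have hl2 := hlt (a + 2)
    have hWa := hWi a
    have hWb := hWi (a + 1)
    have hWd := hWi (a + 2)
    rcases le_or_gt (wt (Hv Z x (a + 1)) + wt (Hv Z x (a + 2))) ((2 / 3 - c₃ / 100) * LX)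
      with hT | hT
    · refine Or.inl ⟨Hv Z x (a + 1) ∪ Hv Z x (a + 2), ?_, ?_, ?_⟩
      · intro p hp
        rw [Finset.mem_union] at hp
        rcases hp with hp | hp
        · exact Nat.prime_of_mem_primeFactors (hmemH _ _ hp)
        · exact Nat.prime_of_mem_primeFactors (hmemH _ _ hp)
      · refine pd_le ?_ hX0 ?_
        · intro p hp
          rw [Finset.mem_union] at hp
          rcases hp with hp | hp
          · exact pf_one (hmemH _ _ hp)
          · exact pf_one (hmemH _ _ hp)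
        · rw [← hLX]
          exact (wt_union_le _ _).trans hT
      · refine sol_of hA _ ?_
        rw [sum3 _ a, ← hL]
        have hmono : ∀ (i : Fin 3) (A B : Finset ℕ), A ⊆ B → ms x i A ≤ ms x i B :=
          fun i A B hAB => Finset.sum_le_sum_of_subset_of_nonneg hAB
            fun p _ _ => mul_nonneg (Nat.cast_nonneg _) (log_nn' p)
        have h1 := hmono a _ _ (Finset.sdiff_subset : Pf x a \ (Hv Z x (a + 1) ∪
          Hv Z x (a + 2)) ⊆ Pf x a)
        have h2 : Pf x (a + 1) \ (Hv Z x (a + 1) ∪ Hv Z x (a + 2)) ⊆ Lt Z x (a + 1) := by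
          intro p hp
          rw [Finset.mem_sdiff, Finset.mem_union] at hp
          by_contra hcon
          exact hp.2 (Or.inl (by rw [← sdiff_Lt]; exact Finset.mem_sdiff.2 ⟨hp.1, hcon⟩))
        have h3 : Pf x (a + 2) \ (Hv Z x (a + 1) ∪ Hv Z x (a + 2)) ⊆ Lt Z x (a + 2) := by
          intro p hp
          rw [Finset.mem_sdiff, Finset.mem_union] at hp
          by_contra hcon
          exact hp.2 (Or.inr (by rw [← sdiff_Lt]; exact Finset.mem_sdiff.2 ⟨hp.1, hcon⟩))
        have h4 := hmono (a + 1) _ _ h2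
        have h5 := hmono (a + 2) _ _ h3
        linarith
    · rcases le_or_gt (LX ^ (K₃ + 3)) (ms x a (Pf x a)) with hB | hB
      · have hex : ∃ q ∈ Pf x a, LX ^ K₃ ≤ ((x a).natAbs.factorization q : ℝ) := by
          by_contra hcon
          push Not at hcon
          have h1 : ms x a (Pf x a) ≤ ∑ p ∈ Pf x a, LX ^ K₃ * Real.log p := by
            refine Finset.sum_le_sum fun p hp => ?_
            exact mul_le_mul_of_nonneg_right (hcon p hp).le (log_nn' p)
          rw [← Finset.mul_sum] at h1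
          have h2 : 0 < LX ^ K₃ := Real.rpow_pos_of_pos (by linarith) _
          have h3 : ∑ p ∈ Pf x a, Real.log (p : ℝ) ≤ LX := by
            have h4 := wt_nn (Pf x (a + 1))
            have h5 := wt_nn (Pf x (a + 2))
            change wt (Pf x a) ≤ LX
            linarith
          have h4 : LX ^ (K₃ + 3) = LX ^ K₃ * LX ^ (3 : ℕ) := by
            rw [Real.rpow_add (by linarith)]
            norm_num
          rw [h4] at hB
          have h5 : LX ^ K₃ * LX ^ (3 : ℕ) ≤ LX ^ K₃ * LX :=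
            (hB.trans h1).trans (mul_le_mul_of_nonneg_left h3 h2.le)
          have h6 : LX ^ (3 : ℕ) ≤ LX := le_of_mul_le_mul_left h5 h2
          have h7 : (2 : ℝ) ≤ LX := by
            by_contra hcon2
            push Not at hcon2
            nlinarith
          have h8 : (4 : ℝ) ≤ LX * LX := by nlinarith
          have h9 : LX * 4 ≤ LX * (LX * LX) := mul_le_mul_of_nonneg_left h8 (by linarith)
          have h10 : LX ^ (3 : ℕ) = LX * (LX * LX) := by ring
          linarith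
        obtain ⟨q, hq, hqv⟩ := hex
        refine Or.inr (Or.inl (k3 hX hA Z hcardh a q hq ?_ ?_ ?_))
        · have h3 : Real.log q ≤ wt (Pf x a) := by
            have h4 : wt {q} ≤ wt (Pf x a) := wt_mono (Finset.singleton_subset_iff.2 hq)
            unfold wt at h4 ⊢
            rwa [Finset.sum_singleton] at h4
          rw [← hLX]
          linarith [hs1.1, hs2.1]
        · rw [← hLX]
          exact hqv
        · rw [← hL]
          have h1 : 0 ≤ ((x a).natAbs.factorization q : ℝ) * Real.log q :=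
            mul_nonneg (Nat.cast_nonneg _) (log_nn' _)
          linarith
      · obtain ⟨q, hq, hqm⟩ := hheavyb (a + 1) hd1
        have hqP := hmemH _ _ hq
        refine Or.inr (Or.inr ⟨a, a + 1, a + 2, q, Lt Z x (a + 2), ne01 a, ne02 a, ne12 a, hqP,
          Finset.filter_subset _ _, ?_, ?_, ?_, ?_, ?_⟩)
        · have h1 : (x (a + 2)).natAbs.primeFactors \ Lt Z x (a + 2) = Hv Z x (a + 2) :=
            sdiff_Lt Z x (a + 2)
          rw [h1]
          have h2 := (hcard1 (a + 2)).trans hh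
          exact_mod_cast h2
        · refine q_pd_le (S := Lt Z x (a + 2)) (fun p hp => pf_one (Finset.mem_filter.1 hp).1)
            (pf_one hqP) hX0 ?_
          have h3 := hwtq _ _ hq
          have h4 := wt_nn (Lt Z x (a + 1))
          rw [← hLX]
          linarith [hs1.1, hs2.1]
        · rw [← log_abs hA, ← hLX]
          exact hB.le
        · rw [← hLX]
          exact (hvbig (a + 1) q hqP (by linarith)).2
        · refine sol_of hA _ ?_
          rw [sum3 _ a, ← hL, ms_sub x (a + 2) (Finset.subset_insert _ _)]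
          have h1 := ms_erase x (a + 1) hqP (insert q (x (a + 2)).natAbs.primeFactors)
            (Finset.mem_insert_self _ _)
          have h2 : ms x a (Pf x a \ insert q (x (a + 2)).natAbs.primeFactors) ≤
              ms x a (Pf x a) :=
            Finset.sum_le_sum_of_subset_of_nonneg Finset.sdiff_subset
              fun p _ _ => mul_nonneg (Nat.cast_nonneg _) (log_nn' p)
          have h3 := hYle (a + 1)
          linarith

theorem pf_SLB (hSLK : T_SLK) : T_SLB := by
  intro c₃ hc0 hc1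
  have hsq : 0 < c₃ ^ 2 := by positivity
  have hsq1 : c₃ ^ 2 ≤ c₃ / 100 := by nlinarith
  refine ⟨1 - c₃ ^ 2 / 100, c₃ / 100, ⌊4 / c₃⌋₊ + 1, by linarith, by positivity, ?_⟩
  intro K₃ K₄ hK3 hK4
  obtain ⟨K₀', ρ', X₀', hK0', hρ', hX0', hS⟩ := hSLK c₃ (c₃ ^ 2 / 100) hc0 hc1 (by positivity)
    (by nlinarith)
  refine ⟨max K₀' (K₃ + K₄ + 2), min ρ' (c₃ / 100), max X₀' (Real.exp (400 / c₃ ^ 2)),
    hK0'.trans (le_max_left _ _), lt_min hρ' (by positivity), hX0'.trans (le_max_left _ _), ?_⟩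
  intro X x hX hx hH
  have hX1 : X₀' ≤ X := (le_max_left _ _).trans hX
  have hX2 : Real.exp (400 / c₃ ^ 2) ≤ X := (le_max_right _ _).trans hX
  have hX0 : 0 < X := by linarith
  have hXg : 1 < X := by linarith
  have hlog : 400 / c₃ ^ 2 ≤ Real.log X := (Real.le_log_iff_exp_le hX0).2 hX2
  have hlog1 : 1 ≤ Real.log X := by
    refine le_trans ?_ hlog
    rw [le_div_iff₀ hsq]
    nlinarith
  have hx' : x ∈ Rd X ρ' := by
    obtain ⟨h1, h2, h3, h4, h5⟩ := hx
    refine ⟨h1, h2, fun i => ?_, ?_, ?_⟩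
    · refine le_trans (Real.rpow_le_rpow_of_exponent_le hXg.le ?_) (h3 i)
      have := min_le_left ρ' (c₃ / 100)
      linarith
    · exact h4.trans (Real.rpow_le_rpow_of_exponent_le hXg.le (min_le_left _ _))
    · exact h5.trans (mul_le_mul_of_nonneg_right (min_le_left _ _) (by linarith))
  have hH' : Real.log X ^ K₀' ≤ Real.log (ht x) :=
    (Real.rpow_le_rpow_of_exponent_le hlog1 (le_max_left _ _)).trans hH
  rcases hS X x hX1 hx' hH' with h | h
  · exact Or.inl h
  · refine Or.inr (core c₃ K₃ K₄ (max K₀' (K₃ + K₄ + 2)) (min ρ' (c₃ / 100)) X x hc0 hc1 hK3 hK4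
      (le_max_right _ _) (lt_min hρ' (by positivity)) (min_le_right _ _) hXg hlog hx hH h _ ?_)
    push_cast
    exact (Nat.lt_floor_add_one _).le

end Pool.Agent.H74.AG
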