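import Pool.Agent.H64.AG.Defs

/-! # Module CLU: the closed sets are unbounded -/

set_option autoImplicit false

open Topology Cardinal

namespace Pool.Agent.H74.AG

open Pool.Agent.H64.AG Pool.Agent.H64.AK Pool.Agent.H20.SL Pool.Agent.H60.CP

theorem clu : T_CLU := by
  intro B hB w
  have hstep : ∀ a : Om, ∃ c : Om, a < c ∧ ∀ β ≤ a, B β < c := by
    intro a
    obtain ⟨c, hc⟩ := bdd (W := Om) ((cIic a).image B)
    refine ⟨c, ?_, fun β hβ => hc _ ⟨β, hβ, rfl⟩⟩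
    exact (hB a).trans (hc _ ⟨a, le_refl a, rfl⟩)
  choose f hf1 hf2 using hstep
  let s : ℕ → Om := fun n => f^[n] w
  have hs : ∀ n, s (n + 1) = f (s n) := fun n => Function.iterate_succ_apply' f n w
  have hne : {u : Om | ∀ n, s n < u}.Nonempty := by
    obtain ⟨c, hc⟩ := bdd (W := Om) (Set.countable_range s)
    exact ⟨c, fun n => hc _ ⟨n, rfl⟩⟩
  obtain ⟨δ, hδ, hmin⟩ := (wellFounded_lt (α := Om)).has_min _ hne
  refine ⟨δ, ⟨⟨w, hδ 0⟩, fun β hβ => ?_⟩, hδ 0⟩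
  have h1 : ¬ ∀ n, s n < β := fun h => hmin β h hβ
  push Not at h1
  obtain ⟨n, hn⟩ := h1
  have h2 := hf2 (s n) β hn
  rw [← hs] at h2
  exact h2.trans (hδ (n + 1))

end Pool.Agent.H74.AG
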