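import Pool.Agent.H64.AG.Defs

/-! # Module DEN: a dense sequence of length omega_1 -/

set_option autoImplicit false

open Topology Cardinal

namespace Pool.Agent.H74.AG

open Pool.Agent.H64.AG Pool.Agent.H64.AK Pool.Agent.H20.SL Pool.Agent.H60.CP

theorem exists_surj : ∃ s : Om → Finset (Om × ℚ × ℚ), Function.Surjective s := by
  have hle : (ℵ₀ : Cardinal) ≤ ℵ₁ := Cardinal.aleph0_lt_aleph_one.le
  have h1 : #(Om × ℚ × ℚ) = ℵ₁ := by
    rw [Cardinal.mk_prod, Cardinal.mk_prod, mk_Om]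
    simp only [Cardinal.lift_id, Cardinal.mk_eq_aleph0]
    rw [Cardinal.aleph0_mul_aleph0, Cardinal.mul_eq_left hle hle Cardinal.aleph0_ne_zero]
  have : Infinite (Om × ℚ × ℚ) := by
    rw [Cardinal.infinite_iff, h1]
    exact hle
  have h2 : #(Finset (Om × ℚ × ℚ)) ≤ #Om := by
    rw [Cardinal.mk_finset_of_infinite, h1, mk_Om]
  obtain ⟨f⟩ := h2
  exact ⟨Function.invFun f, Function.invFun_surjective f.injective⟩

theorem den : T_DEN := by
  classical
  intro X _ _ _ l hl hsep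
  obtain ⟨s, hs⟩ := exists_surj
  let b : Finset (Om × ℚ × ℚ) → Set X := fun s =>
    {x | ∀ u ∈ s, (u.2.1 : ℝ) < l u.1 x ∧ l u.1 x < (u.2.2 : ℝ)}
  let d : Om → X := fun w =>
    if h : (b (s w)).Nonempty then h.some else Classical.arbitrary X
  have hd : ∀ w, (b (s w)).Nonempty → d w ∈ b (s w) := by
    intro w h
    simp only [d, dif_pos h]
    exact h.some_mem
  refine ⟨d, dense_iff_inter_open.2 ?_⟩
  rintro U hU ⟨x, hx⟩
  have hc : Continuous fun (x : X) (ξ : Om) => l ξ x := continuous_pi hl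
  have hi : Function.Injective fun (x : X) (ξ : Om) => l ξ x := by
    intro x y h
    exact hsep x y fun ξ => congrFun h ξ
  have he := hc.isClosedEmbedding hi
  obtain ⟨V, hV, rfl⟩ := he.isInducing.isOpen_iff.1 hU
  obtain ⟨I, u, hu, hIu⟩ := isOpen_pi_iff.1 hV _ hx
  have hpq : ∀ a : Om, ∃ p q : ℚ, a ∈ I → (p : ℝ) < l a x ∧ l a x < (q : ℝ) ∧
      Set.Ioo (p : ℝ) q ⊆ u a := by
    intro a
    by_cases ha : a ∈ I
    swap
    · exact ⟨0, 0, fun h => absurd h ha⟩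
    obtain ⟨ε, hε, hb⟩ := Metric.isOpen_iff.1 (hu a ha).1 _ (hu a ha).2
    obtain ⟨p, hp1, hp2⟩ := exists_rat_btwn (show l a x - ε < l a x by linarith)
    obtain ⟨q, hq1, hq2⟩ := exists_rat_btwn (show l a x < l a x + ε by linarith)
    refine ⟨p, q, fun _ => ⟨hp2, hq1, fun y hy => hb ?_⟩⟩
    rw [Metric.mem_ball, Real.dist_eq, abs_lt]
    have h1 := hy.1
    have h2 := hy.2
    constructor <;> linarith
  choose p q hpq using hpq
  obtain ⟨w, hw⟩ := hs (I.image fun a => (a, p a, q a))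
  have hxb : x ∈ b (s w) := by
    rw [hw]
    intro t ht
    obtain ⟨a, ha, rfl⟩ := Finset.mem_image.1 ht
    exact ⟨(hpq a ha).1, (hpq a ha).2.1⟩
  have h3 := hd w ⟨x, hxb⟩
  refine ⟨d w, hIu ?_, w, rfl⟩
  intro a ha
  rw [hw] at h3
  have h4 := h3 (a, p a, q a) (Finset.mem_image.2 ⟨a, ha, rfl⟩)
  exact (hpq a ha).2.2 ⟨h4.1, h4.2⟩

end Pool.Agent.H74.AG
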